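import Pool.Agent.H32.N6W.Targets

/-!
# Two quadrics in `ℙ⁶`, row NER: nearby real roots
-/

set_option autoImplicit false

open Polynomial NumberField IsDedekindDomain Matrix Pool.Agent.H32.QC Pool.Agent.H34.N6
open Pool.Agent.H13.DEV Pool.Agent.H34.N6V Pool.Agent.H63.WT Pool.Agent.H32.N6W

namespace Pool.Agent.H67.N6W

theorem pf_NER : T_NER := by
  classical
  intro T _ a δ hδ
  obtain ⟨M, hM0, hM⟩ : ∃ M : ℝ, 0 ≤ M ∧ ∀ s, |a s| ≤ M := by
    refine ⟨∑ s, |a s|, Finset.sum_nonneg fun s _ => abs_nonneg _, fun s => ?_⟩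
    exact Finset.single_le_sum (f := fun s => |a s|) (fun _ _ => abs_nonneg _) (Finset.mem_univ s)
  obtain ⟨c, hc⟩ : ∃ c, c = δ / (1 + M + δ) := ⟨_, rfl⟩
  have hden : 0 < 1 + M + δ := by linarith
  have hc0 : 0 < c := by
    rw [hc]
    exact div_pos hδ hden
  obtain ⟨n, hn⟩ : ∃ n, n = Fintype.card T := ⟨_, rfl⟩
  have hcn : 0 < c ^ n := pow_pos hc0 n
  refine ⟨c ^ n / (n + 2), by positivity, ?_⟩
  intro G' hG' hdeg hcl t ht
  by_contra hcon
  push Not at hcon
  have h1 : ∀ s, c * (1 + |t|) ≤ |t - a s| := by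
    intro s
    have h2 := hcon s
    have h3 : |t| ≤ |t - a s| + M := by
      have h4 : |t| ≤ |t - a s| + |a s| := by
        calc |t| = |(t - a s) + a s| := by rw [sub_add_cancel]
          _ ≤ |t - a s| + |a s| := abs_add_le _ _
      linarith [hM s]
    have h5 : c * (1 + |t|) ≤ c * (1 + M + |t - a s|) :=
      mul_le_mul_of_nonneg_left (by linarith) hc0.le
    refine h5.trans ?_
    rw [hc, div_mul_eq_mul_div, div_le_iff₀ hden]
    nlinarith [mul_nonneg (sub_nonneg.2 h2) (by linarith : (0 : ℝ) ≤ 1 + M)]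
  have h2 : (c * (1 + |t|)) ^ n ≤ |eval t (∏ s, (X - C (a s)))| := by
    rw [eval_prod, Finset.abs_prod, hn, ← Finset.card_univ, ← Finset.prod_const]
    refine Finset.prod_le_prod (fun s _ => by positivity) fun s _ => ?_
    rw [eval_sub, eval_X, eval_C]
    exact h1 s
  have hdegE : (G' - ∏ s, (X - C (a s))).natDegree < n + 1 := by
    have hd : G'.natDegree ≤ n := by rw [hdeg, hn]
    have hd2 : (∏ s, (X - C (a s))).natDegree ≤ n := by
      rw [natDegree_prod_of_monic _ _ fun s _ => monic_X_sub_C _]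
      simp only [natDegree_X_sub_C, Finset.sum_const, Finset.card_univ, smul_eq_mul, mul_one]
      rw [hn]
    exact Nat.lt_succ_of_le ((natDegree_sub_le _ _).trans (max_le hd hd2))
  have h3 : |eval t (∏ s, (X - C (a s)))| = |eval t (G' - ∏ s, (X - C (a s)))| := by
    rw [eval_sub, ht, zero_sub, abs_neg]
  have h4 : |eval t (G' - ∏ s, (X - C (a s)))| ≤
      (n + 1) * (c ^ n / (n + 2) * (1 + |t|) ^ n) := by
    rw [eval_eq_sum_range' hdegE]
    refine (Finset.abs_sum_le_sum_abs _ _).trans ?_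
    have h5 : ∀ i ∈ Finset.range (n + 1), |(G' - ∏ s, (X - C (a s))).coeff i * t ^ i| ≤
        c ^ n / (n + 2) * (1 + |t|) ^ n := by
      intro i hi
      rw [abs_mul, abs_pow]
      have h6 : |t| ^ i ≤ (1 + |t|) ^ n := by
        have h7 : |t| ^ i ≤ (1 + |t|) ^ i :=
          pow_le_pow_left₀ (abs_nonneg t) (by linarith) i
        exact h7.trans (pow_le_pow_right₀ (by linarith [abs_nonneg t])
          (Nat.lt_succ_iff.1 (Finset.mem_range.1 hi)))
      exact mul_le_mul (hcl i).le h6 (by positivity) (by positivity)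
    refine (Finset.sum_le_sum h5).trans ?_
    rw [Finset.sum_const, Finset.card_range, nsmul_eq_mul]
    push_cast
    exact le_refl _
  have h5 : 0 < (1 + |t|) ^ n := by positivity
  have h6 : ((n : ℝ) + 1) * (c ^ n / (n + 2) * (1 + |t|) ^ n) < c ^ n * (1 + |t|) ^ n := by
    have h7 : ((n : ℝ) + 1) * (c ^ n / (n + 2) * (1 + |t|) ^ n) =
        (((n : ℝ) + 1) / (n + 2)) * (c ^ n * (1 + |t|) ^ n) := by ring
    have h8 : ((n : ℝ) + 1) / (n + 2) < 1 := by
      rw [div_lt_one (by positivity)]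
      linarith
    rw [h7]
    exact mul_lt_of_lt_one_left (mul_pos hcn h5) h8
  rw [mul_pow, h3] at h2
  exact absurd (h2.trans h4) (not_le.2 h6)

end Pool.Agent.H67.N6W
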